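import Pool.Agent.W610.HY.Stm4

set_option autoImplicit false

namespace Pool.Agent.W214.HY.GOOD2

open Pool.Agent.W610.HY
open MeasureTheory Set Metric Filter Topology

theorem mv_mem {E : Type} [NormedAddCommGroup E] (P : Set ℂ) (F : ℂ → E) (z : ℂ)
    (h : mv P F z ≠ ⊤) : z ∈ P := by
  by_contra hz
  apply h
  unfold mv
  rw [if_neg hz]

theorem mv_toReal {E : Type} [NormedAddCommGroup E] (P : Set ℂ) (F : ℂ → E) (z : ℂ)
    (h : z ∈ P) : (mv P F z).toReal = Real.posLog ‖F z‖ := by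
  unfold mv
  rw [if_pos h, ENNReal.toReal_ofReal Real.posLog_nonneg]

theorem exp_posLog_mul (x : ℝ) (hx : 0 ≤ x) : Real.exp (-(Real.posLog x)) * x ≤ 1 := by
  rcases hx.eq_or_lt with h | h
  · rw [← h, mul_zero]
    exact zero_le_one
  · have h1 : Real.log x ≤ Real.posLog x := by
      rw [Real.posLog_def]
      exact le_max_right _ _
    have h2 : Real.exp (-(Real.posLog x)) ≤ Real.exp (-(Real.log x)) :=
      Real.exp_le_exp.mpr (by linarith)
    calc Real.exp (-(Real.posLog x)) * x ≤ Real.exp (-(Real.log x)) * x :=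
          mul_le_mul_of_nonneg_right h2 hx
      _ = 1 := by
          rw [Real.exp_neg, Real.exp_log h, inv_mul_cancel₀ h.ne']

theorem mv_meas {E : Type} [NormedAddCommGroup E] (P : Set ℂ) (F : ℂ → E)
    (hP : MeasurableSet P) (hF : StronglyMeasurable F) : Measurable (mv P F) := by
  classical
  have h1 : mv P F = fun z => if z ∈ P then ENNReal.ofReal (Real.posLog ‖F z‖) else ⊤ := by
    funext z
    unfold mv
    by_cases hz : z ∈ P
    · simp only [if_pos hz]
    · simp only [if_neg hz]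
  rw [h1]
  refine Measurable.ite hP ?_ measurable_const
  exact ENNReal.measurable_ofReal.comp
    (Real.continuous_posLog.measurable.comp hF.norm.measurable)

theorem scale {c : ℂ} {r : ℝ} (hr : 0 < r) (w : ℂ) (h : ℝ → ℂ) :
    (∫ θ in (0:ℝ)..(2 * Real.pi), h θ * (circleMap 0 1 θ / (circleMap c r θ - w))) =
      (r : ℂ)⁻¹ * ∫ θ in (0:ℝ)..(2 * Real.pi),
        h θ * (circleMap 0 1 θ / (circleMap 0 1 θ - (w - c) / (r : ℂ))) := by
  have hr0 : (r : ℂ) ≠ 0 := by exact_mod_cast hr.ne'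
  have h3 : ∀ θ : ℝ, h θ * (circleMap 0 1 θ / (circleMap c r θ - w)) =
      (r : ℂ)⁻¹ * (h θ * (circleMap 0 1 θ / (circleMap 0 1 θ - (w - c) / (r : ℂ)))) := by
    intro θ
    have h4 : circleMap c r θ - w = (r : ℂ) * (circleMap 0 1 θ - (w - c) / (r : ℂ)) := by
      simp only [circleMap]
      field_simp
      push_cast
      ring
    rw [h4, div_mul_eq_div_div, div_eq_mul_inv (circleMap 0 1 θ) (r : ℂ)]
    ring
  simp only [h3]
  rw [intervalIntegral.integral_const_mul]

theorem main (hOUT2 : OUT2) : Pool.Agent.W610.HY.GOOD2 := by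
  intro E _ P F c r hP hF hr hfin
  have hm : Measurable (fun θ : ℝ => mv P F (circleMap c r θ)) :=
    (mv_meas P F hP hF).comp (continuous_circleMap c r).measurable
  obtain ⟨h, hmeas, hae, hne, hvan⟩ := hOUT2 _ hm hfin
  have hr0 : (r : ℂ) ≠ 0 := by exact_mod_cast hr.ne'
  have hnorm : ∀ w : ℂ, ‖(w - c) / (r : ℂ)‖ = ‖w - c‖ / r := by
    intro w
    rw [norm_div, Complex.norm_real, Real.norm_eq_abs, abs_of_pos hr]
  refine ⟨h, ⟨hr, hmeas, ?_, ?_, ?_, ?_, ?_⟩, ?_⟩
  · filter_upwards [hae] with θ hθ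
    exact mv_mem P F _ hθ.1
  · filter_upwards [hae] with θ hθ
    refine hθ.2.trans ?_
    rw [Real.exp_le_one_iff]
    have := ENNReal.toReal_nonneg (a := mv P F (circleMap c r θ))
    linarith
  · filter_upwards [hae] with θ hθ
    have h1 := mv_mem P F _ hθ.1
    have h2 := hθ.2
    rw [mv_toReal P F _ h1] at h2
    exact (mul_le_mul_of_nonneg_right h2 (norm_nonneg _)).trans
      (exp_posLog_mul _ (norm_nonneg _))
  · have h0 := hne 0 (by rw [norm_zero]; exact zero_lt_one)
    have h1 : ∀ θ : ℝ, h θ * (circleMap 0 1 θ / (circleMap 0 1 θ - 0)) = h θ := by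
      intro θ
      rw [sub_zero, div_self (circleMap_ne_center one_ne_zero), mul_one]
    simp only [h1] at h0
    exact h0
  · intro w hw
    rw [scale hr]
    have h1 : 1 < ‖(w - c) / (r : ℂ)‖ := by
      rw [hnorm, lt_div_iff₀ hr, one_mul]
      exact hw
    rw [hvan _ h1, mul_zero]
  · intro w hw
    rw [scale hr]
    have h1 : ‖(w - c) / (r : ℂ)‖ < 1 := by
      rw [hnorm, div_lt_iff₀ hr, one_mul]
      exact hw
    exact mul_ne_zero (inv_ne_zero hr0) (hne _ h1)

end Pool.Agent.W214.HY.GOOD2
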